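import Mathlib

namespace Pool.Agent.Results.MP_1ce445_co.Full

open Finset

/-- S is a total dominating set: every vertex has a neighbour in S. -/
def TD {n : ℕ} (G : SimpleGraph (Fin n)) (S : Finset (Fin n)) : Prop :=
  ∀ v, ∃ u ∈ S, G.Adj v u

/-- Total domination number. -/
noncomputable def gt {n : ℕ} (G : SimpleGraph (Fin n)) : ℕ :=
  sInf {m | ∃ S, TD G S ∧ S.card = m}

/-- A k-factorization of K_n with all minimum degrees at least 1. -/
def Fac {n k : ℕ} (G : Fin k → SimpleGraph (Fin n)) : Prop :=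
  (∀ u v, u ≠ v → ∃! j, (G j).Adj u v) ∧ ∀ j v, ∃ u, (G j).Adj v u

/-- Weights of total mass at most 1 whose support is an intersecting family of colour sets. -/
def Adm {k : ℕ} (μ : Finset (Fin k) → ℝ) : Prop :=
  (∀ C, 0 ≤ μ C) ∧ ∑ C, μ C ≤ 1 ∧ ∀ C C', μ C ≠ 0 → μ C' ≠ 0 → (C ∩ C').Nonempty

/-- Product over colours j of the weight of the sets avoiding j. -/
noncomputable def val {k : ℕ} (μ : Finset (Fin k) → ℝ) : ℝ :=
  ∏ j, ∑ C ∈ univ.filter (fun C => j ∉ C), μ C

lemma greedy {n : ℕ} (hn : 0 < n) (N : Fin n → Finset (Fin n)) (D : ℕ) (H : Finset (Fin n))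
    (hH : ∀ v ∈ H, D ≤ (N v).card) (t : ℕ) :
    ∃ S : Finset (Fin n), S.card ≤ t ∧
      (H.filter (fun v => ∀ u ∈ S, u ∉ N v)).card * (n + t * D) ≤ n * n := by
  induction t with
  | zero =>
    refine ⟨∅, by simp, ?_⟩
    have := card_le_univ (H.filter (fun v => ∀ u ∈ (∅ : Finset (Fin n)), u ∉ N v))
    rw [Fintype.card_fin] at this
    simpa using Nat.mul_le_mul_right n this
  | succ t ih =>
    obtain ⟨S, hS, hU⟩ := ih
    set U := H.filter (fun v => ∀ u ∈ S, u ∉ N v) with hUdef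
    have hsum : ∑ _u : Fin n, U.card * D ≤
        ∑ u : Fin n, n * (U.filter (fun v => u ∈ N v)).card := by
      rw [sum_const, card_univ, Fintype.card_fin, smul_eq_mul, ← mul_sum]
      refine Nat.mul_le_mul_left _ ?_
      simp only [card_filter]
      rw [sum_comm, ← smul_eq_mul, ← sum_const]
      refine sum_le_sum fun v hv => ?_
      rw [← card_filter]
      simpa using hH v (mem_filter.mp hv).1
    have : Nonempty (Fin n) := ⟨⟨0, hn⟩⟩
    obtain ⟨u, -, hu⟩ := exists_le_of_sum_le univ_nonempty hsum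
    refine ⟨insert u S, (card_insert_le _ _).trans (by omega), ?_⟩
    have he : H.filter (fun v => ∀ w ∈ insert u S, w ∉ N v) =
        U.filter (fun v => ¬ u ∈ N v) := by
      ext v; simp only [hUdef, mem_filter, forall_mem_insert]; tauto
    rw [he]
    have hc := card_filter_add_card_filter_not (s := U) (fun v => u ∈ N v)
    set a := (U.filter (fun v => u ∈ N v)).card
    set b := (U.filter (fun v => ¬ u ∈ N v)).card
    rw [← hc] at hU hu
    nlinarith [Nat.zero_le (a * (t * D)), Nat.zero_le (a * D)]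

lemma gt_le {n : ℕ} (G : SimpleGraph (Fin n)) (S : Finset (Fin n)) (h : TD G S) :
    gt G ≤ S.card := Nat.sInf_le ⟨S, h, rfl⟩

open Classical in
lemma gt_bound {n : ℕ} (hn : 0 < n) (G : SimpleGraph (Fin n)) (h : ∀ v, ∃ u, G.Adj v u)
    (M : ℕ) (hM : 0 < M) :
    (gt G : ℝ) + ((univ.filter (fun v => M * M ≤ (univ.filter (G.Adj v)).card)).card : ℝ) ≤
      n + 2 * n / M + 1 := by
  choose f hf using h
  set H := univ.filter (fun v => M * M ≤ (univ.filter (G.Adj v)).card) with hH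
  obtain ⟨S, hS, hU⟩ := greedy hn (fun v => univ.filter (G.Adj v)) (M * M) H
    (fun v hv => (mem_filter.mp hv).2) (n / M + 1)
  set U := H.filter (fun v => ∀ u ∈ S, u ∉ univ.filter (G.Adj v)) with hUdef
  have hT : TD G (S ∪ (U.image f ∪ Hᶜ.image f)) := by
    intro v
    by_cases h1 : v ∈ H
    · by_cases h2 : v ∈ U
      · exact ⟨f v, mem_union_right _ (mem_union_left _ (mem_image_of_mem f h2)), hf v⟩
      · rw [hUdef, mem_filter] at h2
        push Not at h2
        obtain ⟨u, hu, hu2⟩ := h2 h1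
        exact ⟨u, mem_union_left _ hu, (mem_filter.mp hu2).2⟩
    · exact ⟨f v, mem_union_right _ (mem_union_right _
        (mem_image_of_mem f (mem_compl.mpr h1))), hf v⟩
  have a1 := gt_le G _ hT
  have a2 := card_union_le S (U.image f ∪ Hᶜ.image f)
  have a3 := card_union_le (U.image f) (Hᶜ.image f)
  have a4 : (U.image f).card ≤ U.card := card_image_le
  have a5 : (Hᶜ.image f).card ≤ Hᶜ.card := card_image_le
  have a6 := card_add_card_compl H
  rw [Fintype.card_fin] at a6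
  have b1 : n < (n / M + 1) * M := by
    have := Nat.lt_div_mul_add (a := n) hM
    nlinarith
  have b2 : U.card * M ≤ n := by
    by_contra hc
    push Not at hc
    have : n * n < (U.card * M) * ((n / M + 1) * M) := Nat.mul_lt_mul'' hc b1
    nlinarith [Nat.zero_le (U.card * n)]
  have hM' : (0 : ℝ) < M := by exact_mod_cast hM
  have c1 : (U.card : ℝ) ≤ n / M := by
    rw [le_div_iff₀ hM']; exact_mod_cast b2
  have c2 : ((n / M : ℕ) : ℝ) ≤ n / M := Nat.cast_div_le
  have c3 : gt G + H.card ≤ n + (n / M) + U.card + 1 := by omega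
  have c4 : (gt G : ℝ) + H.card ≤ n + ((n / M : ℕ) : ℝ) + U.card + 1 := by exact_mod_cast c3
  have c5 : 2 * (n : ℝ) / M = n / M + n / M := by ring
  linarith

open Classical in
lemma bad {n k : ℕ} (G : Fin k → SimpleGraph (Fin n))
    (h : ∀ u v, u ≠ v → ∃ j, (G j).Adj u v) (D : ℕ) (X Y : Finset (Fin n))
    (hXY : ∀ u ∈ X, ∀ v ∈ Y, ∀ j, (univ.filter ((G j).Adj u)).card < D ∨
      (univ.filter ((G j).Adj v)).card < D) :
    X.card * Y.card ≤ n + k * (2 * (n * D)) := by
  let B : Fin k → Finset (Fin n × Fin n) := fun j =>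
    (univ.filter (fun v => (univ.filter ((G j).Adj v)).card < D)).biUnion
      (fun v => (univ.filter ((G j).Adj v)).image (fun u => (v, u)))
  have hB : ∀ j, (B j).card ≤ n * D := by
    intro j
    refine (card_biUnion_le_card_mul _ _ D ?_).trans (Nat.mul_le_mul_right _ ?_)
    · intro v hv
      exact card_image_le.trans (mem_filter.mp hv).2.le
    · exact (card_le_univ _).trans (by rw [Fintype.card_fin])
  have hsub : X ×ˢ Y ⊆ univ.image (fun v : Fin n => (v, v)) ∪
      univ.biUnion (fun j => B j ∪ (B j).image Prod.swap) := by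
    rintro ⟨u, v⟩ huv
    obtain ⟨hu, hv⟩ := mem_product.mp huv
    by_cases e : u = v
    · subst e; exact mem_union_left _ (mem_image.mpr ⟨u, mem_univ _, rfl⟩)
    obtain ⟨j, hj⟩ := h u v e
    refine mem_union_right _ (mem_biUnion.mpr ⟨j, mem_univ _, ?_⟩)
    rcases hXY u hu v hv j with h1 | h2
    · refine mem_union_left _ ?_
      exact mem_biUnion.mpr ⟨u, mem_filter.mpr ⟨mem_univ _, h1⟩,
        mem_image.mpr ⟨v, mem_filter.mpr ⟨mem_univ _, hj⟩, rfl⟩⟩
    · refine mem_union_right _ (mem_image.mpr ⟨(v, u), ?_, rfl⟩)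
      exact mem_biUnion.mpr ⟨v, mem_filter.mpr ⟨mem_univ _, h2⟩,
        mem_image.mpr ⟨u, mem_filter.mpr ⟨mem_univ _, hj.symm⟩, rfl⟩⟩
  have a1 := (card_le_card hsub).trans (card_union_le _ _)
  rw [card_product] at a1
  have a2 : (univ.image (fun v : Fin n => (v, v))).card ≤ n :=
    card_image_le.trans (by rw [card_univ, Fintype.card_fin])
  have a3 : (univ.biUnion (fun j => B j ∪ (B j).image Prod.swap)).card ≤ k * (2 * (n * D)) := by
    refine (card_biUnion_le_card_mul _ _ (2 * (n * D)) ?_).trans (by simp)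
    intro j _
    have e2 := card_union_le (B j) ((B j).image Prod.swap)
    have e3 : ((B j).image Prod.swap).card ≤ (B j).card := card_image_le
    have e4 := hB j
    omega
  omega

lemma gt_le_n {n : ℕ} (G : SimpleGraph (Fin n)) (h : ∀ v, ∃ u, G.Adj v u) : gt G ≤ n := by
  have := gt_le G univ (fun v => by simpa using h v)
  rwa [card_univ, Fintype.card_fin] at this

lemma pert {k : ℕ} (x y : Fin k → ℝ) (η : ℝ) (hη : 0 ≤ η) (h0 : ∀ j, 0 ≤ x j) (h1 : ∀ j, x j ≤ 1)
    (y0 : ∀ j, 0 ≤ y j) (hy : ∀ j, y j ≤ x j + η) (s : Finset (Fin k)) :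
    ∏ j ∈ s, y j ≤ ∏ j ∈ s, x j + ((1 + η) ^ s.card - 1) := by
  induction s using Finset.induction_on with
  | empty => simp
  | insert a s ha ih =>
    rw [prod_insert ha, prod_insert ha, card_insert_of_notMem ha, pow_succ]
    have p0 : 0 ≤ ∏ j ∈ s, x j := prod_nonneg fun j _ => h0 j
    have p1 : ∏ j ∈ s, x j ≤ 1 := prod_le_one (fun j _ => h0 j) (fun j _ => h1 j)
    have q0 : 0 ≤ ∏ j ∈ s, y j := prod_nonneg fun j _ => y0 j
    have e1 : (1 : ℝ) ≤ (1 + η) ^ s.card := one_le_pow₀ (by linarith)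
    have := mul_le_mul (hy a) ih q0 (by linarith [h0 a])
    nlinarith [mul_nonneg (sub_nonneg.mpr (h1 a)) (sub_nonneg.mpr e1),
      mul_nonneg hη (sub_nonneg.mpr p1)]

lemma upper (k : ℕ) (η : ℝ) (hη : 0 < η) : ∃ n0 : ℕ, ∀ n, n0 ≤ n →
    ∀ G : Fin k → SimpleGraph (Fin n), Fac G → ∃ μ : Finset (Fin k) → ℝ, Adm μ ∧
      ∀ j, (gt (G j) : ℝ) / n ≤ ∑ C ∈ univ.filter (fun C => j ∉ C), μ C + η := by
  classical
  obtain ⟨M, hM⟩ := exists_nat_gt (6 / η)
  have hM' : (0 : ℝ) < M := lt_of_le_of_lt (by positivity) hM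
  have hM0 : 0 < M := by exact_mod_cast hM'
  set θ : ℝ := η / 3 / 2 ^ k with hθ
  have θ0 : 0 < θ := by positivity
  obtain ⟨n0, hn0⟩ := exists_nat_gt ((1 + k * (2 * (M * M))) / θ ^ 2 + 3 / η)
  refine ⟨n0, fun n hn G hG => ?_⟩
  have hn1 : (n0 : ℝ) ≤ n := by exact_mod_cast hn
  have hn2 := hn0.trans_le hn1
  have t1 : (0 : ℝ) < (1 + k * (2 * (M * M))) / θ ^ 2 := by positivity
  have t2 : (0 : ℝ) < 3 / η := by positivity
  have hn' : (0 : ℝ) < n := by linarith
  have hnn : 0 < n := by exact_mod_cast hn'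
  have t3 : (1 + k * (2 * (M * M)) : ℝ) < n * θ ^ 2 :=
    (div_lt_iff₀ (by positivity)).mp (by linarith)
  have t4 : (3 : ℝ) < n * η := (div_lt_iff₀ hη).mp (by linarith)
  rw [div_lt_iff₀ hη] at hM
  let T : Fin n → Finset (Fin k) := fun v =>
    univ.filter (fun j => M * M ≤ (univ.filter ((G j).Adj v)).card)
  let c : Finset (Fin k) → ℝ := fun C => ((univ.filter (fun v => T v = C)).card : ℝ)
  have c0 : ∀ C, 0 ≤ c C := fun C => Nat.cast_nonneg _
  have csum : ∀ s : Finset (Finset (Fin k)),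
      ∑ C ∈ s, c C = ((univ.filter (fun v => T v ∈ s)).card : ℝ) := by
    intro s
    have := sum_card_fiberwise_eq_card_filter (univ : Finset (Fin n)) s T
    simp only [c]
    exact_mod_cast this
  refine ⟨fun C => if θ * n < c C then c C / n else 0, ⟨fun C => ?_, ?_, ?_⟩, fun j => ?_⟩
  · show 0 ≤ if θ * n < c C then c C / n else 0
    split_ifs
    · exact div_nonneg (c0 C) hn'.le
    · exact le_rfl
  · refine (sum_le_sum (g := fun C => c C / n) fun C _ => ?_).trans ?_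
    · split_ifs
      · exact le_rfl
      · exact div_nonneg (c0 C) hn'.le
    · rw [← sum_div, csum, div_le_one hn']
      exact_mod_cast (card_le_univ _).trans (by rw [Fintype.card_fin])
  · intro C C' h1 h2
    have g1 : θ * n < c C := by by_contra h; exact h1 (if_neg h)
    have g2 : θ * n < c C' := by by_contra h; exact h2 (if_neg h)
    by_contra hne
    have hb := bad G (fun u v huv => (hG.1 u v huv).exists) (M * M)
      (univ.filter (fun v => T v = C)) (univ.filter (fun v => T v = C')) (by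
        intro u hu v hv j
        by_contra hcon
        push Not at hcon
        refine hne ⟨j, mem_inter.mpr ⟨?_, ?_⟩⟩
        · rw [← (mem_filter.mp hu).2]; exact mem_filter.mpr ⟨mem_univ _, hcon.1⟩
        · rw [← (mem_filter.mp hv).2]; exact mem_filter.mpr ⟨mem_univ _, hcon.2⟩)
    have hb' : c C * c C' ≤ n + k * (2 * (n * (M * M))) := by
      simp only [c]; exact_mod_cast hb
    have := mul_lt_mul'' g1 g2 (by positivity) (by positivity)
    have := mul_lt_mul_of_pos_left t3 hn'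
    nlinarith
  · have g1 := gt_bound hnn (G j) (hG.2 j) M hM0
    have g2 := card_filter_add_card_filter_not (s := (univ : Finset (Fin n)))
      (fun v => M * M ≤ (univ.filter ((G j).Adj v)).card)
    rw [card_univ, Fintype.card_fin] at g2
    have g4 : univ.filter (fun v => T v ∈ univ.filter (fun C => j ∉ C)) =
        univ.filter (fun v => ¬ M * M ≤ (univ.filter ((G j).Adj v)).card) := by
      ext v; simp [T]
    have g5 := csum (univ.filter (fun C => j ∉ C))
    rw [g4] at g5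
    have g3 : ((univ.filter (fun v => M * M ≤ (univ.filter ((G j).Adj v)).card)).card : ℝ) +
        ∑ C ∈ univ.filter (fun C => j ∉ C), c C = n := by rw [g5]; exact_mod_cast g2
    have c4 : 2 * (n : ℝ) / M ≤ η / 3 * n := by
      rw [div_le_iff₀ hM']; nlinarith
    have g6 : ∑ C ∈ univ.filter (fun C => j ∉ C), c C ≤ ∑ C ∈ univ.filter (fun C => j ∉ C),
        ((if θ * n < c C then c C / n else 0) * n + θ * n) := by
      refine sum_le_sum fun C _ => ?_
      split_ifs with h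
      · rw [div_mul_cancel₀ _ hn'.ne']; nlinarith
      · linarith [not_lt.mp h]
    rw [sum_add_distrib, ← sum_mul, sum_const, nsmul_eq_mul] at g6
    have g7 : ((univ.filter (fun C : Finset (Fin k) => j ∉ C)).card : ℝ) ≤ 2 ^ k := by
      exact_mod_cast (card_le_univ _).trans (by simp)
    have g8 := mul_le_mul_of_nonneg_right g7 (show 0 ≤ θ * n by positivity)
    have g9 : 2 ^ k * (θ * n) = η / 3 * n := by rw [hθ]; field_simp
    rw [div_le_iff₀ hn']
    nlinarith

abbrev Vt {k : ℕ} (m : Finset (Fin k) → ℕ) (r : ℕ) : Type :=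
  ((Σ C : Finset (Fin k), Fin (m C)) × (Fin k → Bool)) ⊕ Fin r

def Mt {k : ℕ} {m : Finset (Fin k) → ℕ} {r : ℕ} (j : Fin k) : Vt m r → Vt m r → Prop
  | .inl a, .inl b => a.1 = b.1 ∧ a.2 j ≠ b.2 j ∧ ∀ i, i ≠ j → a.2 i = b.2 i
  | _, _ => False

def cl {k : ℕ} {m : Finset (Fin k) → ℕ} {r : ℕ} (hk : 0 < k) (p : Finset (Fin k) → Fin k) :
    Vt m r → Vt m r → Fin k
  | .inl a, .inl b => p (a.1.1 ∩ b.1.1)
  | .inl a, .inr _ => p a.1.1
  | .inr _, .inl b => p b.1.1
  | .inr a, .inr b => ⟨(a + b) % k, Nat.mod_lt _ hk⟩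

lemma Mt_symm {k : ℕ} {m : Finset (Fin k) → ℕ} {r : ℕ} (j : Fin k) (u v : Vt m r)
    (h : Mt j u v) : Mt j v u := by
  rcases u with a | a <;> rcases v with b | b
  · exact ⟨h.1.symm, h.2.1.symm, fun i hi => (h.2.2 i hi).symm⟩
  all_goals exact h

lemma Mt_uniq {k : ℕ} {m : Finset (Fin k) → ℕ} {r : ℕ} (i j : Fin k) (u v : Vt m r)
    (h : Mt i u v) (h' : Mt j u v) : i = j := by
  rcases u with a | a <;> rcases v with b | b
  · by_contra hne
    exact h.2.1 (h'.2.2 i hne)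
  all_goals exact h.elim

lemma cl_symm {k : ℕ} {m : Finset (Fin k) → ℕ} {r : ℕ} (hk : 0 < k) (p : Finset (Fin k) → Fin k)
    (u v : Vt m r) : cl hk p u v = cl hk p v u := by
  rcases u with a | a <;> rcases v with b | b
  · simp only [cl, inter_comm]
  · rfl
  · rfl
  · simp only [cl, add_comm]

def fl {k : ℕ} (j : Fin k) (b : Fin k → Bool) : Fin k → Bool := fun i => if i = j then !b i else b i

lemma Mt_fl {k : ℕ} {m : Finset (Fin k) → ℕ} {r : ℕ} (j : Fin k)
    (w : Σ C : Finset (Fin k), Fin (m C)) (b : Fin k → Bool) :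
    Mt (r := r) j (.inl (w, fl j b)) (.inl (w, b)) :=
  ⟨rfl, by simp [fl], fun i hi => by simp [fl, hi]⟩

lemma constr {n k : ℕ} (hk : 0 < k) (m : Finset (Fin k) → ℕ)
    (hm : ∀ C C', m C ≠ 0 → m C' ≠ 0 → (C ∩ C').Nonempty)
    (hn : (∑ C, m C) * 2 ^ k + 2 * k ≤ n) : ∃ G : Fin k → SimpleGraph (Fin n), Fac G ∧
      ∀ j, (∑ C ∈ univ.filter (fun C => j ∉ C), m C) * 2 ^ k ≤ gt (G j) := by
  classical
  obtain ⟨r, hr, hr2⟩ : ∃ r, (∑ C, m C) * 2 ^ k + r = n ∧ 2 * k ≤ r :=
    ⟨n - (∑ C, m C) * 2 ^ k, by omega, by omega⟩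
  have hcard : Fintype.card (Vt m r) = n := by simp [← hr]
  let e : Fin n ≃ Vt m r := (Fintype.equivFinOfCardEq hcard).symm
  obtain ⟨p, hp⟩ : ∃ p : Finset (Fin k) → Fin k, ∀ s : Finset (Fin k), s.Nonempty → p s ∈ s :=
    ⟨fun s => if h : s.Nonempty then h.choose else ⟨0, hk⟩,
      fun s h => by simp only [dif_pos h]; exact h.choose_spec⟩
  let A : Fin k → Vt m r → Vt m r → Prop := fun j u v =>
    u ≠ v ∧ (Mt j u v ∨ ((∀ i, ¬ Mt i u v) ∧ cl hk p u v = j))
  have As : ∀ j u v, A j u v → A j v u := fun j u v h =>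
    ⟨h.1.symm, h.2.imp (Mt_symm j u v)
      (fun h' => ⟨fun i hi => h'.1 i (Mt_symm i _ _ hi), (cl_symm hk p v u).trans h'.2⟩)⟩
  let G : Fin k → SimpleGraph (Fin n) := fun j =>
    { Adj := fun u v => A j (e u) (e v)
      symm := ⟨fun u v h => As j _ _ h⟩
      loopless := ⟨fun u h => h.1 rfl⟩ }
  have Afl : ∀ j w b, A j (.inl (w, fl j b)) (.inl (w, b)) := fun j w b =>
    ⟨fun h => (Mt_fl (r := r) j w b).2.1 (by rw [Sum.inl.inj h]), Or.inl (Mt_fl j w b)⟩
  have nb : ∀ j x, ∃ y, A j x y := by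
    intro j x
    rcases x with ⟨w, b⟩ | a
    · exact ⟨_, As _ _ _ (Afl j w b)⟩
    · obtain ⟨t, ht, h1⟩ : ∃ t, t < k ∧ ((a : ℕ) + t) % k = j := by
        refine ⟨(j + (k - a % k)) % k, Nat.mod_lt _ hk, ?_⟩
        have h2 := Nat.mod_lt (a : ℕ) hk
        rw [Nat.add_mod_mod, ← Nat.mod_add_mod,
          show (a : ℕ) % k + (j + (k - a % k)) = j + k by omega, Nat.add_mod_right,
          Nat.mod_eq_of_lt j.2]
      by_cases h3 : (a : ℕ) = t
      · refine ⟨.inr ⟨t + k, by omega⟩, fun h => ?_, Or.inr ⟨fun i hi => hi, Fin.ext ?_⟩⟩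
        · have := congrArg Fin.val (Sum.inr.inj h)
          simp only at this; omega
        · show ((a : ℕ) + (t + k)) % k = j
          rw [← add_assoc, Nat.add_mod_right, h1]
      · exact ⟨.inr ⟨t, by omega⟩, fun h => h3 (congrArg Fin.val (Sum.inr.inj h)),
          Or.inr ⟨fun i hi => hi, Fin.ext h1⟩⟩
  have hnb : ∀ j v, ∃ u, (G j).Adj v u := fun j v => by
    obtain ⟨y, hy⟩ := nb j (e v)
    exact ⟨e.symm y, by show A j (e v) (e (e.symm y)); rwa [e.apply_symm_apply]⟩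
  refine ⟨G, ⟨fun u v huv => ?_, hnb⟩, fun j => ?_⟩
  · have hne : e u ≠ e v := e.injective.ne huv
    by_cases h : ∃ i, Mt i (e u) (e v)
    · obtain ⟨i, hi⟩ := h
      exact ⟨i, ⟨hne, Or.inl hi⟩, fun j hj => hj.2.elim (fun h' => Mt_uniq _ _ _ _ h' hi)
        (fun h' => (h'.1 i hi).elim)⟩
    · push Not at h
      exact ⟨_, ⟨hne, Or.inr ⟨h, rfl⟩⟩, fun j hj => hj.2.elim (fun h' => (h j h').elim)
        (fun h' => h'.2.symm)⟩
  · have hne : {t | ∃ S, TD (G j) S ∧ S.card = t}.Nonempty :=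
      ⟨_, univ, fun v => by simpa using hnb j v, rfl⟩
    obtain ⟨S, hS, hc⟩ := Nat.sInf_mem hne
    unfold gt
    rw [← hc]
    have hX : (((univ.filter (fun C : Finset (Fin k) => j ∉ C)).sigma
        (fun C => (univ : Finset (Fin (m C))))) ×ˢ (univ : Finset (Fin k → Bool))).card =
        (∑ C ∈ univ.filter (fun C => j ∉ C), m C) * 2 ^ k := by simp
    rw [← hX]
    refine card_le_card_of_injOn (fun x => e.symm (.inl x)) ?_
      (fun x _ y _ h => Sum.inl.inj (e.symm.injective h))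
    rintro ⟨w, b⟩ hx
    have hw : j ∉ w.1 := (mem_filter.mp (mem_sigma.mp (mem_product.mp hx).1).1).2
    have m0 : ∀ w : (Σ C : Finset (Fin k), Fin (m C)), m w.1 ≠ 0 := fun w => w.2.pos.ne'
    obtain ⟨u, hu, hadj⟩ := hS (e.symm (.inl (w, fl j b)))
    have h1 : A j (e (e.symm (.inl (w, fl j b)))) (e u) := hadj
    rw [e.apply_symm_apply] at h1
    have h2 : e u = .inl (w, b) := by
      generalize e u = y at h1
      rcases y with ⟨w', b'⟩ | a
      · rcases h1.2 with h | h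
        · have e1 : w = w' := h.1
          have e2 : b' = b := by
            funext i
            by_cases hi : i = j
            · subst hi
              have := h.2.1
              simp only [fl, if_true] at this
              revert this; cases b i <;> cases b' i <;> simp
            · have := h.2.2 i hi
              simp only [fl, if_neg hi] at this
              exact this.symm
          rw [e1, e2]
        · have h3 : p (w.1 ∩ w'.1) = j := h.2
          exact (hw (h3 ▸ (mem_inter.mp (hp _ (hm _ _ (m0 w) (m0 w')))).1)).elim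
      · rcases h1.2 with h | h
        · exact h.elim
        · have h3 : p w.1 = j := h.2
          have h4 := hm _ _ (m0 w) (m0 w)
          rw [inter_self] at h4
          exact (hw (h3 ▸ hp _ h4)).elim
    show e.symm (.inl (w, b)) ∈ S
    rw [← h2, e.symm_apply_apply]; exact hu

lemma asym (k : ℕ) (hk : 0 < k) (ε : ℝ) (hε : 0 < ε) : ∃ n0 : ℕ, ∀ n, n0 ≤ n →
    (∀ G : Fin k → SimpleGraph (Fin n), Fac G → ∃ μ : Finset (Fin k) → ℝ, Adm μ ∧
      ((∏ j, gt (G j) : ℕ) : ℝ) ≤ (val μ + ε) * (n : ℝ) ^ k) ∧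
    (∀ μ : Finset (Fin k) → ℝ, Adm μ → ∃ G : Fin k → SimpleGraph (Fin n), Fac G ∧
      (val μ - ε) * (n : ℝ) ^ k ≤ ((∏ j, gt (G j) : ℕ) : ℝ)) := by
  classical
  have hk' : (0 : ℝ) < k := by exact_mod_cast hk
  set η := Real.log (1 + ε) / k with hη
  have η0 : 0 < η := div_pos (Real.log_pos (by linarith)) hk'
  have η1 : (1 + η) ^ k - 1 ≤ ε := by
    have h1 := pow_le_pow_left₀ (by linarith) (show 1 + η ≤ Real.exp η by
      linarith [Real.add_one_le_exp η]) k
    rw [← Real.exp_nat_mul, hη, mul_div_cancel₀ _ hk'.ne', Real.exp_log (by linarith)] at h1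
    linarith
  obtain ⟨n1, h1⟩ := upper k η η0
  obtain ⟨n2, h2⟩ := exists_nat_gt ((2 * k + 2 ^ k * 2 ^ k) / η)
  refine ⟨n1 + n2 + 2 * k, fun n hn => ?_⟩
  have hn' : (0 : ℝ) < n := by exact_mod_cast (show 0 < n by omega)
  have hn2 : (2 * k + 2 ^ k * 2 ^ k : ℝ) < n * η :=
    (div_lt_iff₀ η0).mp (h2.trans_le (by exact_mod_cast (show n2 ≤ n by omega)))
  have hn3 : (0 : ℝ) ≤ n - 2 * k := by
    have : ((2 * k : ℕ) : ℝ) ≤ n := by exact_mod_cast (show 2 * k ≤ n by omega)
    push_cast at this; linarith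
  have pe : ∀ G : Fin k → SimpleGraph (Fin n),
      ((∏ j, gt (G j) : ℕ) : ℝ) = (∏ j, (gt (G j) : ℝ) / n) * (n : ℝ) ^ k := by
    intro G
    rw [prod_div_distrib, prod_const, card_univ, Fintype.card_fin, div_mul_cancel₀ _ (by positivity)]
    push_cast; rfl
  have a0 : ∀ μ : Finset (Fin k) → ℝ, Adm μ → ∀ j : Fin k,
      0 ≤ ∑ C ∈ univ.filter (fun C => j ∉ C), μ C := fun μ h j => sum_nonneg fun C _ => h.1 C
  have a1 : ∀ μ : Finset (Fin k) → ℝ, Adm μ → ∀ j : Fin k,
      ∑ C ∈ univ.filter (fun C => j ∉ C), μ C ≤ 1 := fun μ h j =>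
    (sum_le_sum_of_subset_of_nonneg (subset_univ _) fun C _ _ => h.1 C).trans h.2.1
  refine ⟨fun G hG => ?_, fun μ hμ => ?_⟩
  · obtain ⟨μ, hμ, h⟩ := h1 n (by omega) G hG
    refine ⟨μ, hμ, ?_⟩
    rw [pe]
    refine mul_le_mul_of_nonneg_right ?_ (by positivity)
    have := pert _ (fun j => (gt (G j) : ℝ) / n) η η0.le (a0 μ hμ) (a1 μ hμ)
      (fun j => by positivity) h univ
    rw [card_univ, Fintype.card_fin] at this
    unfold val; linarith
  · have P : (0 : ℝ) < 2 ^ k := by positivity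
    have z0 : ∀ C, 0 ≤ μ C * (n - 2 * k) / 2 ^ k := fun C =>
      div_nonneg (mul_nonneg (hμ.1 C) hn3) P.le
    obtain ⟨G, hG, h⟩ := constr (n := n) hk (fun C => ⌊μ C * (n - 2 * k) / 2 ^ k⌋₊)
      (fun C C' e1 e2 => hμ.2.2 C C' (fun e => e1 (by simp [e])) (fun e => e2 (by simp [e]))) (by
        have b1 : ∑ C, (⌊μ C * (n - 2 * k) / 2 ^ k⌋₊ : ℝ) ≤ ∑ C, μ C * (n - 2 * k) / 2 ^ k :=
          sum_le_sum fun C _ => Nat.floor_le (z0 C)
        rw [← sum_div, ← sum_mul, le_div_iff₀ P] at b1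
        have b2 := mul_le_mul_of_nonneg_right hμ.2.1 hn3
        have b3 : (∑ C, (⌊μ C * (n - 2 * k) / 2 ^ k⌋₊ : ℝ)) * 2 ^ k + 2 * k ≤ n := by linarith
        exact_mod_cast b3)
    refine ⟨G, hG, ?_⟩
    rw [pe]
    refine mul_le_mul_of_nonneg_right ?_ (by positivity)
    have := pert (fun j => (gt (G j) : ℝ) / n) _ η η0.le (fun j => by positivity)
      (fun j => (div_le_one hn').mpr (by exact_mod_cast gt_le_n _ (hG.2 j))) (a0 μ hμ) (fun j => by
        have b1 : (∑ C ∈ univ.filter (fun C => j ∉ C), (⌊μ C * (n - 2 * k) / 2 ^ k⌋₊ : ℝ)) * 2 ^ k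
            ≤ gt (G j) := by exact_mod_cast h j
        have b2 : ∑ C ∈ univ.filter (fun C => j ∉ C), μ C * (n - 2 * k) / 2 ^ k ≤
            ∑ C ∈ univ.filter (fun C => j ∉ C), ((⌊μ C * (n - 2 * k) / 2 ^ k⌋₊ : ℝ) + 1) :=
          sum_le_sum fun C _ => (Nat.lt_floor_add_one _).le
        rw [← sum_div, ← sum_mul, div_le_iff₀ P, sum_add_distrib, sum_const, nsmul_eq_mul,
          mul_one] at b2
        have g7 : ((univ.filter (fun C : Finset (Fin k) => j ∉ C)).card : ℝ) ≤ 2 ^ k := by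
          exact_mod_cast (card_le_univ _).trans (by simp)
        have g8 := mul_le_mul_of_nonneg_right g7 P.le
        have g9 := mul_le_mul_of_nonneg_right (a1 μ hμ j) (show (0 : ℝ) ≤ 2 * k by positivity)
        show _ ≤ (gt (G j) : ℝ) / n + η
        rw [div_add' _ _ _ hn'.ne', le_div_iff₀ hn']
        nlinarith) univ
    rw [card_univ, Fintype.card_fin] at this
    unfold val; linarith

noncomputable def pp {k : ℕ} (μ : Finset (Fin k) → ℝ) (j : Fin k) : ℝ :=
  ∑ C, μ C * (if j ∈ C then 1 else 0)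

lemma qp {k : ℕ} (μ : Finset (Fin k) → ℝ) (h1 : ∑ C, μ C = 1) (j : Fin k) :
    ∑ C ∈ univ.filter (fun C => j ∉ C), μ C = 1 - pp μ j := by
  rw [← h1, pp, ← sum_sub_distrib, sum_filter]
  refine sum_congr rfl fun C _ => ?_
  by_cases h : j ∈ C <;> simp [h]

lemma sp {k : ℕ} (μ : Finset (Fin k) → ℝ) (S : Finset (Fin k)) :
    ∑ j ∈ S, pp μ j = ∑ C, μ C * ((S ∩ C).card : ℝ) := by
  unfold pp
  rw [sum_comm]
  refine sum_congr rfl fun C _ => ?_
  rw [← mul_sum, sum_ite_mem]; simp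

lemma spl {k : ℕ} (μ : Finset (Fin k) → ℝ) (h0 : ∀ C, 0 ≤ μ C) (f g : Finset (Fin k) → ℝ)
    (h : ∀ C, μ C ≠ 0 → f C ≤ g C) : ∑ C, μ C * f C ≤ ∑ C, μ C * g C := by
  refine sum_le_sum fun C _ => ?_
  by_cases e : μ C = 0
  · simp [e]
  · exact mul_le_mul_of_nonneg_left (h C e) (h0 C)

lemma wt {k : ℕ} (μ : Finset (Fin k) → ℝ) (hμ : Adm μ) (h1 : ∑ C, μ C = 1) (a : Fin k)
    (A : Finset (Fin k)) (ha : a ∉ A) (u g : ℕ) (hg : 0 < g)
    (hc : ∀ C, μ C ≠ 0 → u + (if a ∈ C then 0 else g) ≤ (univ.erase a ∩ C).card + (A ∩ C).card) :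
    val μ ≤ (Real.exp 1 / 2) ^ A.card * Real.exp (-(u + 1 : ℝ)) / g := by
  have q0 : ∀ j, 0 ≤ 1 - pp μ j := fun j => by
    rw [← qp μ h1]; exact sum_nonneg fun C _ => hμ.1 C
  have hg' : (0 : ℝ) < g := by exact_mod_cast hg
  have e1 : ∏ j ∈ univ.erase a, (1 - pp μ j) ≤ ∏ j ∈ univ.erase a,
      (Real.exp (-pp μ j) * if j ∈ A then Real.exp 1 / 2 * Real.exp (-pp μ j) else 1) := by
    refine prod_le_prod (fun j _ => q0 j) fun j _ => ?_
    split_ifs
    · have := Real.add_one_le_exp (-pp μ j + 1 + -pp μ j)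
      rw [Real.exp_add, Real.exp_add] at this
      nlinarith
    · linarith [Real.add_one_le_exp (-pp μ j)]
  have e2 : univ.erase a ∩ A = A := by
    ext x; simp only [mem_inter, mem_erase, mem_univ, and_true]
    exact ⟨fun h => h.2, fun h => ⟨fun e => ha (e ▸ h), h⟩⟩
  rw [prod_mul_distrib, prod_ite_mem, e2, prod_mul_distrib, prod_const, ← Real.exp_sum,
    ← Real.exp_sum, sum_neg_distrib, sum_neg_distrib, sp, sp, mul_left_comm, ← Real.exp_add] at e1
  have e3 := spl μ hμ.1 (fun C => (u : ℝ) + g - g * (if a ∈ C then 1 else 0))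
    (fun C => ((univ.erase a ∩ C).card : ℝ) + (A ∩ C).card) (by
      intro C hC
      have := hc C hC
      by_cases h : a ∈ C
      · simp only [h, if_true] at this ⊢
        have : ((u + 0 : ℕ) : ℝ) ≤ ((univ.erase a ∩ C).card + (A ∩ C).card : ℕ) := by
          exact_mod_cast this
        push_cast at this; linarith
      · simp only [h, if_false] at this ⊢
        have : ((u + g : ℕ) : ℝ) ≤ ((univ.erase a ∩ C).card + (A ∩ C).card : ℕ) := by
          exact_mod_cast this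
        push_cast at this; linarith)
  have e4 : ∑ C, μ C * ((u : ℝ) + g - g * (if a ∈ C then 1 else 0)) = u + g - g * pp μ a := by
    have : ∑ C, μ C * ((u : ℝ) + g) = u + g := by rw [← sum_mul, h1, one_mul]
    rw [pp, mul_sum]
    conv_rhs => rw [← this, ← sum_sub_distrib]
    exact sum_congr rfl fun C _ => by ring
  rw [e4] at e3
  simp only [mul_add, sum_add_distrib] at e3
  have e5 : ∏ j ∈ univ.erase a, (1 - pp μ j) ≤
      (Real.exp 1 / 2) ^ A.card * Real.exp (-(u + g * (1 - pp μ a))) := by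
    refine e1.trans (mul_le_mul_of_nonneg_left (Real.exp_le_exp.mpr ?_) (by positivity))
    linarith
  unfold val
  rw [prod_congr rfl (fun j _ => qp μ h1 j), ← mul_prod_erase univ _ (mem_univ a), le_div_iff₀ hg']
  have e8 := Real.add_one_le_exp (g * (1 - pp μ a) - 1)
  have e9 : Real.exp (-(u + 1 : ℝ)) =
      Real.exp (g * (1 - pp μ a) - 1) * Real.exp (-(u + g * (1 - pp μ a))) := by
    rw [← Real.exp_add]; congr 1; ring
  have f1 := mul_le_mul_of_nonneg_left e5 (mul_nonneg hg'.le (q0 a))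
  have f2 : (0 : ℝ) ≤ (Real.exp 1 / 2) ^ A.card * Real.exp (-(u + g * (1 - pp μ a))) := by
    positivity
  have f3 := mul_le_mul_of_nonneg_right (show g * (1 - pp μ a) ≤
    Real.exp (g * (1 - pp μ a) - 1) by linarith) f2
  rw [e9]
  nlinarith

lemma en (u : ℕ) : Real.exp (-(u + 1 : ℝ)) = 1 / Real.exp 1 ^ (u + 1) := by
  rw [Real.exp_neg, ← Real.exp_nat_mul, one_div]; push_cast; rw [mul_one]

lemma star {k : ℕ} (μ : Finset (Fin k) → ℝ) (hμ : Adm μ) (h1 : ∑ C, μ C = 1)
    (h2 : ∀ C, μ C ≠ 0 → 2 ≤ C.card) (a b : Fin k) (hab : a ≠ b) (hb : μ {a, b} ≠ 0)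
    (hc : ∀ C, μ C ≠ 0 → a ∉ C → 3 ≤ C.card) : val μ ≤ 1 / 27 := by
  classical
  set A := univ.filter (fun x => x ≠ a ∧ μ {a, x} ≠ 0) with hA
  have ha : a ∉ A := by simp [hA]
  have m1 : 1 ≤ A.card := card_pos.mpr ⟨b, by simp [hA, hab.symm, hb]⟩
  have c1 : ∀ C : Finset (Fin k), univ.erase a ∩ C = C.erase a := by intro C; ext x; simp
  have sub : ∀ C, μ C ≠ 0 → a ∉ C → A ⊆ C := by
    intro C hC h x hx
    obtain ⟨y, hy⟩ := hμ.2.2 _ _ (mem_filter.mp hx).2.2 hC
    simp only [mem_inter, mem_insert, mem_singleton] at hy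
    rcases hy with ⟨rfl | rfl, hy⟩
    · exact (h hy).elim
    · exact hy
  have E1 := Real.exp_one_gt_d9
  have E2 := Real.exp_one_lt_d9
  by_cases h5 : 5 ≤ A.card
  · refine (wt μ hμ h1 a ∅ (by simp) 1 4 (by norm_num) fun C hC => ?_).trans ?_
    · rw [c1]
      split_ifs with h
      · rw [card_erase_of_mem h]; have := h2 C hC; omega
      · rw [erase_eq_of_notMem h]; have := card_le_card (sub C hC h); omega
    · rw [en, card_empty, pow_zero, one_mul, div_div, div_le_div_iff₀ (by positivity) (by norm_num)]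
      push_cast; nlinarith
  · refine (wt μ hμ h1 a A ha 2 (max 3 A.card + A.card - 2) (by omega) fun C hC => ?_).trans ?_
    · rw [c1]
      split_ifs with h
      · rw [card_erase_of_mem h]
        have := h2 C hC
        by_cases h3 : 3 ≤ C.card
        · omega
        · obtain ⟨x, hx⟩ := card_eq_one.mp (show (C.erase a).card = 1 by
            rw [card_erase_of_mem h]; omega)
          have e : C = {a, x} := by rw [← insert_erase h, hx]
          have hxm : x ∈ C.erase a := by rw [hx]; exact mem_singleton_self x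
          have : 1 ≤ (A ∩ C).card := card_pos.mpr ⟨x, mem_inter.mpr
            ⟨mem_filter.mpr ⟨mem_univ _, (mem_erase.mp hxm).1, e ▸ hC⟩, (mem_erase.mp hxm).2⟩⟩
          omega
      · rw [erase_eq_of_notMem h, inter_eq_left.mpr (sub C hC h)]
        have := card_le_card (sub C hC h)
        have := hc C hC h
        omega
    · rw [en]
      generalize A.card = m at *
      generalize Real.exp 1 = e at *
      have e0 : 0 < e := by linarith
      have : m < 5 := by omega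
      interval_cases m <;> norm_num <;> field_simp <;> nlinarith

lemma amgm (a b c : ℝ) (ha : 0 ≤ a) (hb : 0 ≤ b) (hc : 0 ≤ c) (h : a + b + c ≤ 1) :
    a * (b * c) ≤ 1 / 27 := by
  have h1 : 27 * (a * b * c) ≤ (a + b + c) ^ 3 := by
    nlinarith [mul_nonneg ha (sq_nonneg (b - c)), mul_nonneg hb (sq_nonneg (a - c)),
      mul_nonneg hc (sq_nonneg (a - b)),
      mul_nonneg (add_nonneg (add_nonneg ha hb) hc)
        (add_nonneg (add_nonneg (sq_nonneg (a - b)) (sq_nonneg (b - c))) (sq_nonneg (a - c)))]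
  have h2 := pow_le_pow_left₀ (by positivity) h 3
  linarith

lemma expb (p : ℝ) (h0 : 0 ≤ p) (h1 : p ≤ 1) : 1 - p ≤ Real.exp (-(p + 3 / 10 * (p * p))) := by
  set y := p + 3 / 10 * (p * p) with hy
  have y0 : p ≤ y := by nlinarith
  have y1 : y ≤ 13 / 10 := by nlinarith
  have e1 := pow_le_pow_left₀ (by linarith) (Real.add_one_le_exp (-y / 4)) 4
  rw [← Real.exp_nat_mul, show ((4 : ℕ) : ℝ) * (-y / 4) = -y by push_cast; ring] at e1
  have e2 : 3 / 10 * (p * p) ≤ y * y * (6 - y) / 16 := by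
    have : p * p ≤ y * y := mul_self_le_mul_self h0 y0
    by_cases h : y ≤ 6 / 5
    · nlinarith [mul_self_nonneg y]
    · have : p * p ≤ 1 := by nlinarith
      have : 36 / 25 ≤ y * y := by nlinarith
      nlinarith
  nlinarith [pow_nonneg (h0.trans y0) 4]

lemma norm27 {k : ℕ} (μ : Finset (Fin k) → ℝ) (hμ : Adm μ) (h1 : ∑ C, μ C = 1) :
    val μ ≤ 1 / 27 := by
  classical
  have q0 : ∀ j, 0 ≤ 1 - pp μ j := fun j => by
    rw [← qp μ h1]; exact sum_nonneg fun C _ => hμ.1 C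
  have p0 : ∀ j, 0 ≤ pp μ j := fun j =>
    sum_nonneg fun C _ => mul_nonneg (hμ.1 C) (by split_ifs <;> norm_num)
  have low : ∀ (S : Finset (Fin k)) (t : ℕ), (∀ C, μ C ≠ 0 → t ≤ (S ∩ C).card) →
      (t : ℝ) ≤ ∑ j ∈ S, pp μ j := by
    intro S t h
    have := spl μ hμ.1 (fun _ => (t : ℝ)) (fun C => ((S ∩ C).card : ℝ))
      (fun C hC => by exact_mod_cast h C hC)
    rwa [← sum_mul, h1, one_mul, ← sp] at this
  have l1 : ∀ S, μ S ≠ 0 → (1 : ℝ) ≤ ∑ j ∈ S, pp μ j := fun S hS => by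
    exact_mod_cast low S 1 fun C hC => card_pos.mpr (hμ.2.2 _ _ hS hC)
  have hv : val μ = ∏ j, (1 - pp μ j) := prod_congr rfl (fun j _ => qp μ h1 j)
  by_cases h3 : ∀ C, μ C ≠ 0 → 3 ≤ C.card
  · have s1 := low univ 3 (fun C hC => by rw [univ_inter]; exact h3 C hC)
    have s2 : 1 ≤ ∑ j, pp μ j * pp μ j := by
      have := spl μ hμ.1 (fun _ => (1 : ℝ)) (fun C => ∑ j ∈ C, pp μ j) l1
      rw [← sum_mul, h1, one_mul] at this
      refine this.trans (le_of_eq ?_)
      have e : ∀ j, pp μ j * pp μ j = ∑ C, μ C * (if j ∈ C then pp μ j else 0) := by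
        intro j
        nth_rewrite 1 [pp]
        rw [sum_mul]
        exact sum_congr rfl fun C _ => by split_ifs <;> simp
      rw [sum_congr rfl (fun j _ => e j), sum_comm]
      refine sum_congr rfl fun C _ => ?_
      rw [← mul_sum, sum_ite_mem, univ_inter]
    rw [hv]
    refine (prod_le_prod (fun j _ => q0 j) fun j _ => expb _ (p0 j) (by linarith [q0 j])).trans ?_
    rw [← Real.exp_sum, sum_neg_distrib, sum_add_distrib, ← mul_sum]
    refine (Real.exp_le_exp.mpr (show _ ≤ -((2 : ℕ) + 1 : ℝ) + -(3 / 10) by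
      push_cast at s1 ⊢; linarith)).trans ?_
    have E1 := Real.exp_one_gt_d9
    have E3 := Real.quadratic_le_exp_of_nonneg (show (0 : ℝ) ≤ 3 / 10 by norm_num)
    have E4 := pow_le_pow_left₀ (by norm_num) E1.le 3
    rw [Real.exp_add, en, Real.exp_neg, ← div_eq_mul_inv, div_div,
      div_le_div_iff₀ (by positivity) (by norm_num)]
    have := mul_le_mul E4 E3 (by norm_num) (by positivity)
    norm_num at this ⊢
    linarith
  by_cases h2 : ∀ C, μ C ≠ 0 → 2 ≤ C.card
  swap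
  · push Not at h2
    obtain ⟨C, hC, h⟩ := h2
    have := card_pos.mpr (hμ.2.2 _ _ hC hC)
    rw [inter_self] at this
    obtain ⟨a, rfl⟩ := card_eq_one.mp (show C.card = 1 by omega)
    have := l1 _ hC
    rw [sum_singleton] at this
    rw [hv, prod_eq_zero (mem_univ a) (by linarith [q0 a])]
    norm_num
  push Not at h3
  obtain ⟨C, hC, h⟩ := h3
  obtain ⟨a, b, hab, rfl⟩ := card_eq_two.mp (show C.card = 2 by have := h2 C hC; omega)
  by_cases ca : ∀ C, μ C ≠ 0 → a ∉ C → 3 ≤ C.card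
  · exact star μ hμ h1 h2 a b hab hC ca
  by_cases cb : ∀ C, μ C ≠ 0 → b ∉ C → 3 ≤ C.card
  · exact star μ hμ h1 h2 b a hab.symm (by rwa [pair_comm]) cb
  push Not at ca cb
  obtain ⟨C1, m1, a1, k1⟩ := ca
  obtain ⟨C2, m2, b2, k2⟩ := cb
  obtain ⟨x, hx⟩ := hμ.2.2 _ _ m1 m2
  obtain ⟨x1, x2⟩ := mem_inter.mp hx
  have xa : a ≠ x := fun e => a1 (e ▸ x1)
  have xb : b ≠ x := fun e => b2 (e ▸ x2)
  have b1 : b ∈ C1 := by
    obtain ⟨y, hy⟩ := hμ.2.2 _ _ hC m1
    simp only [mem_inter, mem_insert, mem_singleton] at hy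
    rcases hy with ⟨rfl | rfl, hy⟩
    · exact (a1 hy).elim
    · exact hy
  have a2 : a ∈ C2 := by
    obtain ⟨y, hy⟩ := hμ.2.2 _ _ hC m2
    simp only [mem_inter, mem_insert, mem_singleton] at hy
    rcases hy with ⟨rfl | rfl, hy⟩
    · exact hy
    · exact (b2 hy).elim
  have e1 : ({b, x} : Finset (Fin k)) = C1 := eq_of_subset_of_card_le
    (by intro y; simp only [mem_insert, mem_singleton]; rintro (rfl | rfl) <;> assumption)
    (by rw [card_pair xb]; omega)
  have e2 : ({a, x} : Finset (Fin k)) = C2 := eq_of_subset_of_card_le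
    (by intro y; simp only [mem_insert, mem_singleton]; rintro (rfl | rfl) <;> assumption)
    (by rw [card_pair xa]; omega)
  subst e1 e2
  have n1 : a ∉ ({b, x} : Finset (Fin k)) := by simp [hab, xa]
  have s1 := low {a, b, x} 2 (by
    intro C hC'
    have t1 := hμ.2.2 _ _ hC hC'
    have t2 := hμ.2.2 _ _ m1 hC'
    have t3 := hμ.2.2 _ _ m2 hC'
    by_cases u1 : a ∈ C <;> by_cases u2 : b ∈ C <;> by_cases u3 : x ∈ C <;>
      simp [u1, u2, u3, hab, xa, xb] at t1 t2 t3 ⊢)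
  rw [sum_insert n1, sum_pair xb] at s1
  rw [hv]
  refine (prod_le_prod_of_subset_of_le_one (subset_univ {a, b, x}) (fun j _ => q0 j)
    (fun j _ _ => by linarith [p0 j])).trans ?_
  rw [prod_insert n1, prod_pair xb]
  exact amgm _ _ _ (q0 a) (q0 b) (q0 x) (by push_cast at s1; linarith)

lemma all27 {k : ℕ} (hk : 0 < k) (μ : Finset (Fin k) → ℝ) (hμ : Adm μ) : val μ ≤ 1 / 27 := by
  have s0 : 0 ≤ ∑ C, μ C := sum_nonneg fun C _ => hμ.1 C
  rcases s0.eq_or_lt with h | h
  · have z := (sum_eq_zero_iff_of_nonneg fun C _ => hμ.1 C).mp h.symm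
    unfold val
    rw [prod_eq_zero (mem_univ (⟨0, hk⟩ : Fin k)) (sum_eq_zero fun C _ => z C (mem_univ _))]
    norm_num
  · have e : ∑ C, μ C / ∑ C, μ C = 1 := by rw [← sum_div, div_self h.ne']
    refine le_trans ?_ (norm27 (fun C => μ C / ∑ C, μ C) ⟨fun C => div_nonneg (hμ.1 C) s0, e.le,
      fun C C' a b => hμ.2.2 C C' (fun z => a (by simp [z])) (fun z => b (by simp [z]))⟩ e)
    exact prod_le_prod (fun j _ => sum_nonneg fun C _ => hμ.1 C) fun j _ =>
      sum_le_sum fun C _ => le_div_self (hμ.1 C) h hμ.2.1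

lemma tri {k : ℕ} (a b c : Fin k) (hab : a ≠ b) (hac : a ≠ c) (hbc : b ≠ c) :
    ∃ μ : Finset (Fin k) → ℝ, Adm μ ∧ val μ = 1 / 27 := by
  classical
  refine ⟨fun C => (if C = {a, b} then 1 / 3 else 0) + ((if C = {a, c} then 1 / 3 else 0) +
    (if C = {b, c} then 1 / 3 else 0)), ⟨fun C => ?_, ?_, fun C C' h h' => ?_⟩, ?_⟩
  · positivity
  · simp only [sum_add_distrib, sum_ite_eq', mem_univ, if_true]; norm_num
  · have key : ∀ D : Finset (Fin k), (if D = {a, b} then (1 : ℝ) / 3 else 0) +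
        ((if D = {a, c} then 1 / 3 else 0) + (if D = {b, c} then 1 / 3 else 0)) ≠ 0 →
        D = {a, b} ∨ D = {a, c} ∨ D = {b, c} := by
      intro D hD
      by_contra hn
      push Not at hn
      exact hD (by simp [hn.1, hn.2.1, hn.2.2])
    rcases key C h with rfl | rfl | rfl <;> rcases key C' h' with rfl | rfl | rfl <;>
      first | (refine ⟨a, ?_⟩; simp; done) | (refine ⟨b, ?_⟩; simp; done) | (refine ⟨c, ?_⟩; simp; done)
  · unfold val
    have e : ∀ j : Fin k, ∑ C ∈ univ.filter (fun C : Finset (Fin k) => j ∉ C),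
        ((if C = {a, b} then (1 : ℝ) / 3 else 0) + ((if C = {a, c} then 1 / 3 else 0) +
        (if C = {b, c} then 1 / 3 else 0))) =
        if j ∈ ({a, b, c} : Finset (Fin k)) then 1 / 3 else 1 := by
      intro j
      simp only [sum_add_distrib, sum_ite_eq', mem_filter, mem_univ, true_and, mem_insert,
        mem_singleton]
      by_cases h1 : j = a
      · subst h1; simp [hab, hac]
      · by_cases h2 : j = b
        · subst h2; simp [hab.symm, hbc]
        · by_cases h3 : j = c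
          · subst h3; simp [hac.symm, hbc.symm]
          · simp [h1, h2, h3]; norm_num
    rw [prod_congr rfl (fun j _ => e j), prod_ite_mem, univ_inter, prod_const,
      card_eq_three.mpr ⟨a, b, c, hab, hac, hbc, rfl⟩]
    norm_num

theorem result (k : ℕ) (hk : 3 ≤ k) (ε : ℝ) (hε : 0 < ε) : ∃ n0 : ℕ, ∀ n, n0 ≤ n →
    (∀ G : Fin k → SimpleGraph (Fin n), Fac G →
      ((∏ j, gt (G j) : ℕ) : ℝ) ≤ (1 / 27 + ε) * (n : ℝ) ^ k) ∧
    (∃ G : Fin k → SimpleGraph (Fin n), Fac G ∧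
      (1 / 27 - ε) * (n : ℝ) ^ k ≤ ((∏ j, gt (G j) : ℕ) : ℝ)) := by
  obtain ⟨n0, h⟩ := asym k (by omega) ε hε
  refine ⟨n0, fun n hn => ⟨fun G hG => ?_, ?_⟩⟩
  · obtain ⟨μ, hμ, h'⟩ := (h n hn).1 G hG
    refine h'.trans (mul_le_mul_of_nonneg_right ?_ (by positivity))
    linarith [all27 (by omega) μ hμ]
  · obtain ⟨μ, hμ, hv⟩ := tri (k := k) ⟨0, by omega⟩ ⟨1, by omega⟩ ⟨2, by omega⟩
      (by simp) (by simp) (by simp)
    rw [← hv]
    exact (h n hn).2 μ hμ

end Pool.Agent.Results.MP_1ce445_co.Full
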